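import Pool.Agent.K1H70.KR.Stm

/-! Project KR (helper70), piece P3: the Fischer pairing and the restriction to a slice. -/

set_option autoImplicit false

namespace Pool.Agent.K1H69.KR

open MvPolynomial Pool.Agent.K1H70.KR

section

variable {σ : Type}

/-! ### The Fischer pairing -/

theorem fac_add [Fintype σ] (α : σ →₀ ℕ) (u : σ) :
    ((α + Finsupp.single u 1).prod fun _ k => (k.factorial : ℂ)) =
      (α u + 1) * α.prod fun _ k => (k.factorial : ℂ) := by
  classical
  rw [Finsupp.prod_fintype _ _ (by simp), Finsupp.prod_fintype _ _ (by simp),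
    ← Finset.mul_prod_erase _ _ (Finset.mem_univ u), ← Finset.mul_prod_erase _ _ (Finset.mem_univ u)]
  have h1 : ∏ x ∈ Finset.univ.erase u, (((α + Finsupp.single u 1 : σ →₀ ℕ) x).factorial : ℂ) =
      ∏ x ∈ Finset.univ.erase u, ((α x).factorial : ℂ) := by
    apply Finset.prod_congr rfl
    intro x hx
    rw [Finsupp.add_apply, Finsupp.single_apply, if_neg (Finset.ne_of_mem_erase hx).symm, add_zero]
  rw [h1, Finsupp.add_apply, Finsupp.single_eq_same, Nat.factorial_succ]
  push_cast
  ring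

theorem fis_X_mul [Fintype σ] (u : σ) (f g : MvPolynomial σ ℂ) :
    fis (X u * f) g = fis f (pderiv u g) := by
  induction f using MvPolynomial.induction_on' with
  | add p q hp hq =>
    rw [mul_add, map_add, map_add, LinearMap.add_apply, LinearMap.add_apply, hp, hq]
  | monomial α c =>
    have h : (X u * monomial α c : MvPolynomial σ ℂ) = monomial (α + Finsupp.single u 1) c := by
      rw [X, monomial_mul, one_mul, add_comm]
    rw [h, fis_monomial, fis_monomial, coeff_pderiv, fac_add]
    ring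

theorem fis_symm (f g : MvPolynomial σ ℂ) : fis f g = fis g f := by
  classical
  induction f using MvPolynomial.induction_on' with
  | add p q hp hq => rw [map_add, LinearMap.add_apply, map_add, hp, hq]
  | monomial α c =>
    induction g using MvPolynomial.induction_on' with
    | add p q hp hq => rw [map_add, map_add, LinearMap.add_apply, hp, hq]
    | monomial β d =>
      rw [fis_monomial, fis_monomial, coeff_monomial, coeff_monomial]
      by_cases h : α = β
      · subst h; simp; ring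
      · rw [if_neg h, if_neg (Ne.symm h)]; simp

theorem fis_pderiv [Fintype σ] (u : σ) (f g : MvPolynomial σ ℂ) :
    fis (pderiv u f) g = fis f (X u * g) := by
  rw [fis_symm, ← fis_X_mul, fis_symm]

theorem lin_apply [Fintype σ] (M : σ → σ → ℝ) (p : MvPolynomial σ ℂ) :
    lin M p = ∑ u, ∑ w, ((M u w : ℝ) : ℂ) • (X u * pderiv w p) := by
  simp only [lin, LinearMap.sum_apply, LinearMap.smul_apply, Module.End.mul_apply]
  rfl

theorem fis_lin [Fintype σ] (M : σ → σ → ℝ) (f g : MvPolynomial σ ℂ) :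
    fis (lin M f) g = fis f (lin (fun u w => M w u) g) := by
  rw [lin_apply, lin_apply, map_sum, LinearMap.sum_apply, map_sum]
  simp only [map_sum, LinearMap.sum_apply, map_smul, LinearMap.smul_apply]
  rw [Finset.sum_comm]
  refine Finset.sum_congr rfl fun w _ => Finset.sum_congr rfl fun u _ => ?_
  rw [fis_X_mul, fis_pderiv]

/-! ### Commutators -/

theorem pd_comm (u w : σ) (p : MvPolynomial σ ℂ) :
    pderiv u (pderiv w p) = pderiv w (pderiv u p) := by
  classical
  have h : ⁅(pderiv u : Derivation ℂ (MvPolynomial σ ℂ) (MvPolynomial σ ℂ)),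
      (pderiv w : Derivation ℂ (MvPolynomial σ ℂ) (MvPolynomial σ ℂ))⁆ = 0 := by
    apply derivation_ext
    intro i
    rw [Derivation.commutator_apply]
    by_cases h1 : i = u
    · subst h1
      by_cases h2 : i = w
      · subst h2; simp
      · rw [pderiv_X_self, pderiv_X_of_ne h2]; simp
    · rw [pderiv_X_of_ne h1]
      by_cases h2 : i = w
      · subst h2; simp
      · rw [pderiv_X_of_ne h2]; simp
  have h2 := congrArg (fun D : Derivation ℂ (MvPolynomial σ ℂ) (MvPolynomial σ ℂ) => D p) h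
  simp only [Derivation.commutator_apply, Derivation.zero_apply] at h2
  exact sub_eq_zero.1 h2

theorem pd_X_mul (t u : σ) (p : MvPolynomial σ ℂ) [Decidable (t = u)] :
    pderiv t (X u * p) = (if t = u then p else 0) + X u * pderiv t p := by
  rw [pderiv_mul]
  split_ifs with h
  · subst h; rw [pderiv_X_self, one_mul]
  · rw [pderiv_X_of_ne (Ne.symm h), zero_mul]

theorem pd_lin [Fintype σ] (M : σ → σ → ℝ) (t : σ) (p : MvPolynomial σ ℂ) :
    pderiv t (lin M p) = (∑ w, ((M t w : ℝ) : ℂ) • pderiv w p) + lin M (pderiv t p) := by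
  classical
  rw [lin_apply, lin_apply, map_sum]
  simp only [map_sum, Derivation.map_smul, pd_X_mul, smul_add, Finset.sum_add_distrib]
  refine congrArg₂ (· + ·) ?_ ?_
  · rw [Finset.sum_comm]
    refine Finset.sum_congr rfl fun w _ => ?_
    rw [Finset.sum_eq_single t]
    · rw [if_pos rfl]
    · intro u _ hu
      rw [if_neg (Ne.symm hu), smul_zero]
    · simp
  · refine Finset.sum_congr rfl fun u _ => Finset.sum_congr rfl fun w _ => ?_
    rw [pd_comm]

variable {m : ℕ}

theorem Eu_apply (v : Fin (m + 1) → σ) (p : MvPolynomial σ ℂ) :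
    Eu v p = ∑ a, X (v a) * pderiv (v a) p := by
  simp only [Eu, LinearMap.sum_apply, Module.End.mul_apply]
  rfl

theorem pd_Eu (v : Fin (m + 1) → σ) (hv : Function.Injective v) (b : Fin (m + 1))
    (p : MvPolynomial σ ℂ) : pderiv (v b) (Eu v p) = pderiv (v b) p + Eu v (pderiv (v b) p) := by
  classical
  rw [Eu_apply, Eu_apply, map_sum]
  simp only [pd_X_mul, Finset.sum_add_distrib]
  refine congrArg₂ (· + ·) ?_ ?_
  · rw [Finset.sum_eq_single b]
    · rw [if_pos rfl]
    · intro u _ hu
      rw [if_neg fun h => hu (hv h).symm]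
    · simp
  · refine Finset.sum_congr rfl fun u _ => ?_
    rw [pd_comm]

/-! ### The main computation -/

/-- the iterated derivative -/
noncomputable def Dk (u : σ) (k : ℕ) (p : MvPolynomial σ ℂ) : MvPolynomial σ ℂ :=
  (fun q => pderiv u q)^[k] p

theorem Dk_zero (u : σ) (p : MvPolynomial σ ℂ) : Dk u 0 p = p := rfl

theorem Dk_succ (u : σ) (k : ℕ) (p : MvPolynomial σ ℂ) : Dk u (k + 1) p = pderiv u (Dk u k p) := by
  rw [Dk, Function.iterate_succ_apply']; rfl

theorem Eu_Dk (v : Fin (m + 1) → σ) (hv : Function.Injective v) (N : ℕ) (p : MvPolynomial σ ℂ)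
    (hp : Eu v p = (N : ℂ) • p) (k : ℕ) : Eu v (Dk (v 0) k p) = ((N : ℂ) - k) • Dk (v 0) k p := by
  induction k with
  | zero => rw [Dk_zero, hp]; simp
  | succ k ih =>
    have h1 := pd_Eu v hv 0 (Dk (v 0) k p)
    rw [ih, Derivation.map_smul] at h1
    rw [Dk_succ, ← sub_eq_iff_eq_add'.2 h1]
    push_cast
    module

theorem lin_Dk [Fintype σ] {v : Fin (m + 1) → σ} {M : Fin m → σ → σ → ℝ}
    (hM : Adm v M) (a : Fin m) (g : MvPolynomial σ ℂ) (hg : lin (M a) g = 0) (k : ℕ) :
    lin (M a) (Dk (v 0) (k + 1) g) = -((k : ℂ) + 1) • pderiv (v a.succ) (Dk (v 0) k g) := by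
  classical
  have key : ∀ p : MvPolynomial σ ℂ, lin (M a) (pderiv (v 0) p) =
      pderiv (v 0) (lin (M a) p) - pderiv (v a.succ) p := by
    intro p
    rw [pd_lin, Finset.sum_eq_single (v a.succ)]
    · rw [(hM.2 a 0 (v a.succ)), if_pos ⟨rfl, rfl⟩]
      simp
    · intro w _ hw
      rw [hM.2 a 0 w, if_neg fun h => hw h.2]
      simp
    · simp
  induction k with
  | zero =>
    rw [Dk_succ, key, Dk_zero, hg]
    simp
  | succ k ih =>
    rw [Dk_succ, key, ih, Derivation.map_smul, pd_comm, ← Dk_succ]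
    push_cast
    module

theorem linT_Dk [Fintype σ] {v : Fin (m + 1) → σ} {M : Fin m → σ → σ → ℝ}
    (hM : Adm v M) (a : Fin m) (h : MvPolynomial σ ℂ) (hh : lin (fun u w => M a w u) h = 0) (k : ℕ) :
    lin (fun u w => M a w u) (pderiv (v a.succ) (Dk (v 0) k h)) = - Dk (v 0) (k + 1) h := by
  classical
  have key0 : ∀ p : MvPolynomial σ ℂ, lin (fun u w => M a w u) (pderiv (v 0) p) =
      pderiv (v 0) (lin (fun u w => M a w u) p) := by
    intro p
    rw [pd_lin, Finset.sum_eq_zero]
    · simp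
    · intro w _
      rw [hM.1 a w 0, if_neg fun h => (Fin.succ_ne_zero a) h.2.symm]
      simp
  have key1 : ∀ p : MvPolynomial σ ℂ, lin (fun u w => M a w u) (pderiv (v a.succ) p) =
      pderiv (v a.succ) (lin (fun u w => M a w u) p) - pderiv (v 0) p := by
    intro p
    rw [pd_lin, Finset.sum_eq_single (v 0)]
    · rw [hM.1 a (v 0) a.succ, if_pos ⟨rfl, rfl⟩]
      simp
    · intro w _ hw
      rw [hM.1 a w a.succ, if_neg fun h => hw h.1]
      simp
    · simp
  have h0 : lin (fun u w => M a w u) (Dk (v 0) k h) = 0 := by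
    induction k with
    | zero => exact hh
    | succ k ih => rw [Dk_succ, key0, ih, map_zero]
  rw [key1, h0, map_zero, zero_sub, ← Dk_succ]

theorem step [Fintype σ] {v : Fin (m + 1) → σ} {M : Fin m → σ → σ → ℝ}
    (hv : Function.Injective v) (hM : Adm v M) (N : ℕ) (g h : MvPolynomial σ ℂ)
    (hg : Eu v g = (N : ℂ) • g) (hMg : ∀ a, lin (M a) g = 0)
    (hMh : ∀ a, lin (fun u w => M a w u) h = 0) (k : ℕ) :
    ((N : ℂ) - k) * fis (Dk (v 0) k g) (Dk (v 0) k h) =
      (((k : ℂ) + 1 + m) / (k + 1)) * fis (Dk (v 0) (k + 1) g) (Dk (v 0) (k + 1) h) := by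
  have hk : (k : ℂ) + 1 ≠ 0 := by exact_mod_cast Nat.succ_ne_zero k
  have h1 : fis (Eu v (Dk (v 0) k g)) (Dk (v 0) k h) =
      ∑ b, fis (pderiv (v b) (Dk (v 0) k g)) (pderiv (v b) (Dk (v 0) k h)) := by
    rw [Eu_apply, map_sum, LinearMap.sum_apply]
    exact Finset.sum_congr rfl fun b _ => fis_X_mul _ _ _
  rw [Eu_Dk v hv N g hg, map_smul, LinearMap.smul_apply, smul_eq_mul] at h1
  rw [h1, Fin.sum_univ_succ, ← Dk_succ, ← Dk_succ]
  have h2 : ∀ a : Fin m, fis (pderiv (v a.succ) (Dk (v 0) k g)) (pderiv (v a.succ) (Dk (v 0) k h)) =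
      (1 / ((k : ℂ) + 1)) * fis (Dk (v 0) (k + 1) g) (Dk (v 0) (k + 1) h) := by
    intro a
    have e1 : pderiv (v a.succ) (Dk (v 0) k g) =
        (-(1 / ((k : ℂ) + 1))) • lin (M a) (Dk (v 0) (k + 1) g) := by
      rw [lin_Dk hM a g (hMg a) k, smul_smul]
      have : -(1 / ((k : ℂ) + 1)) * -((k : ℂ) + 1) = 1 := by field_simp
      rw [this, one_smul]
    rw [e1, map_smul, LinearMap.smul_apply, fis_lin, linT_Dk hM a h (hMh a) k, map_neg, smul_eq_mul]
    ring
  rw [Finset.sum_congr rfl fun a _ => h2 a, Finset.sum_const, Finset.card_univ, Fintype.card_fin,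
    nsmul_eq_mul]
  field_simp

theorem iter [Fintype σ] {v : Fin (m + 1) → σ} {M : Fin m → σ → σ → ℝ}
    (hv : Function.Injective v) (hM : Adm v M) (N : ℕ) (g h : MvPolynomial σ ℂ)
    (hg : Eu v g = (N : ℂ) • g) (hMg : ∀ a, lin (M a) g = 0)
    (hMh : ∀ a, lin (fun u w => M a w u) h = 0) (k : ℕ) (hk : k ≤ N) :
    (N.factorial : ℂ) * m.factorial * k.factorial * fis g h =
      (N - k).factorial * (k + m).factorial * fis (Dk (v 0) k g) (Dk (v 0) k h) := by
  induction k with
  | zero => rw [Dk_zero, Dk_zero]; simp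
  | succ k ih =>
    have h1 := step hv hM N g h hg hMg hMh k
    have h2 := ih (by omega)
    have hk0 : (k : ℂ) + 1 ≠ 0 := by exact_mod_cast Nat.succ_ne_zero k
    have h3 : ((N - k).factorial : ℂ) = ((N : ℂ) - k) * (N - (k + 1)).factorial := by
      obtain ⟨d, rfl⟩ : ∃ d, N = k + 1 + d := ⟨N - (k + 1), by omega⟩
      have : k + 1 + d - k = d + 1 := by omega
      rw [this, Nat.factorial_succ]
      have : k + 1 + d - (k + 1) = d := by omega
      rw [this]; push_cast; ring
    rw [h3] at h2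
    have h4 : ((k + 1 + m).factorial : ℂ) = ((k : ℂ) + 1 + m) * (k + m).factorial := by
      have : k + 1 + m = (k + m) + 1 := by ring
      rw [this, Nat.factorial_succ]; push_cast; ring
    rw [h4, Nat.factorial_succ]
    push_cast
    have h5 : ((k : ℂ) + 1) * (((N : ℂ) - k) * fis (Dk (v 0) k g) (Dk (v 0) k h)) =
        ((k : ℂ) + 1 + m) * fis (Dk (v 0) (k + 1) g) (Dk (v 0) (k + 1) h) := by
      rw [h1]; field_simp
    linear_combination ((k : ℂ) + 1) * h2 +
      ((N - (k + 1)).factorial : ℂ) * (k + m).factorial * h5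

/-! ### The slice -/

theorem sl_X_zero (v : Fin (m + 1) → σ) : sl v (X (v 0)) = 1 := by
  rw [sl, aeval_X, if_pos rfl]

theorem sl_X_succ (v : Fin (m + 1) → σ) (hv : Function.Injective v) (a : Fin m) :
    sl v (X (v a.succ)) = 0 := by
  rw [sl, aeval_X, if_neg fun h => Fin.succ_ne_zero a (hv h), if_pos ⟨a.succ, rfl⟩]

theorem sl_X_other (v : Fin (m + 1) → σ) {u : σ} (hu : u ∉ Set.range v) :
    sl v (X u) = X u := by
  rw [sl, aeval_X, if_neg fun h => hu ⟨0, h.symm⟩, if_neg hu]

theorem sl_Eu (v : Fin (m + 1) → σ) (hv : Function.Injective v) (p : MvPolynomial σ ℂ) :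
    sl v (Eu v p) = sl v (pderiv (v 0) p) := by
  rw [Eu_apply, map_sum, Fin.sum_univ_succ, map_mul, sl_X_zero, one_mul, Finset.sum_eq_zero, add_zero]
  intro a _
  rw [map_mul, sl_X_succ v hv, zero_mul]

theorem sl_Dk (v : Fin (m + 1) → σ) (hv : Function.Injective v) (N : ℕ) (g : MvPolynomial σ ℂ)
    (hg : Eu v g = (N : ℂ) • g) (k : ℕ) (hk : k ≤ N) :
    ((N - k).factorial : ℂ) • sl v (Dk (v 0) k g) = (N.factorial : ℂ) • sl v g := by
  induction k with
  | zero => rw [Dk_zero]; simp
  | succ k ih =>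
    have h2 := ih (by omega)
    have h3 : ((N - k).factorial : ℂ) = (N - (k + 1)).factorial * ((N : ℂ) - k) := by
      obtain ⟨d, rfl⟩ : ∃ d, N = k + 1 + d := ⟨N - (k + 1), by omega⟩
      have : k + 1 + d - k = d + 1 := by omega
      rw [this, Nat.factorial_succ]
      have : k + 1 + d - (k + 1) = d := by omega
      rw [this]; push_cast; ring
    rw [← h2, h3, mul_smul, Dk_succ, ← sl_Eu v hv, Eu_Dk v hv N g hg, map_smul]

theorem coeff_Eu (v : Fin (m + 1) → σ) (p : MvPolynomial σ ℂ) (α : σ →₀ ℕ) :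
    coeff α (Eu v p) = (∑ b, α (v b) : ℕ) * coeff α p := by
  classical
  rw [Eu_apply, coeff_sum]
  push_cast
  rw [Finset.sum_mul]
  refine Finset.sum_congr rfl fun b _ => ?_
  induction p using MvPolynomial.induction_on' with
  | add p q hp hq => rw [map_add, mul_add, coeff_add, coeff_add, hp, hq, mul_add]
  | monomial β c =>
    rw [X_mul_pderiv_monomial, coeff_smul, coeff_monomial]
    split_ifs with h
    · subst h; simp
    · simp

theorem sl_of_Eu (v : Fin (m + 1) → σ) (p : MvPolynomial σ ℂ) (hp : Eu v p = 0) : sl v p = p := by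
  have key : ∀ u ∈ p.vars, u ∉ Set.range v := by
    rintro u hu ⟨b, rfl⟩
    rw [mem_vars_iff_mem_support] at hu
    obtain ⟨α, hα, hb⟩ := hu
    have h1 := coeff_Eu v p α
    rw [hp, coeff_zero] at h1
    rw [mem_support_iff] at hα
    have h2 := (mul_eq_zero.1 h1.symm).resolve_right hα
    have h3 : ∑ b, α (v b) = 0 := by exact_mod_cast h2
    have h4 := (Finset.sum_eq_zero_iff.1 h3) b (Finset.mem_univ b)
    exact (Finsupp.mem_support_iff.1 hb) h4
  have h : (sl v : MvPolynomial σ ℂ →ₐ[ℂ] MvPolynomial σ ℂ).toRingHom p =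
      (RingHom.id (MvPolynomial σ ℂ)) p := by
    apply hom_congr_vars _ _ rfl
    · ext <;> simp
    · intro u hu _
      exact sl_X_other v (key u hu)
  exact h

end

/-- P3. -/
theorem t_LEM : S_LEM := by
  intro σ _ m v M hv hM N g h hg hh hMg hMh
  have h1 := iter hv hM N g h hg hMg hMh N le_rfl
  have e : ∀ p : MvPolynomial σ ℂ, Eu v p = (N : ℂ) • p →
      Dk (v 0) N p = (N.factorial : ℂ) • sl v p := by
    intro p hp
    have h2 := sl_Dk v hv N p hp N le_rfl
    rw [Nat.sub_self, Nat.factorial_zero, Nat.cast_one, one_smul, sl_of_Eu] at h2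
    · exact h2
    · rw [Eu_Dk v hv N p hp, sub_self, zero_smul]
  rw [e g hg, e h hh] at h1
  simp only [map_smul, LinearMap.smul_apply, Nat.sub_self, Nat.factorial_zero,
    Nat.cast_one, one_mul, smul_eq_mul] at h1
  have hN : (N.factorial : ℂ) ≠ 0 := by exact_mod_cast N.factorial_ne_zero
  have hm : (m.factorial : ℂ) ≠ 0 := by exact_mod_cast m.factorial_ne_zero
  have h3 : (m.factorial : ℂ) * fis g h = (N + m).factorial * fis (sl v g) (sl v h) := by
    have := mul_left_cancel₀ (mul_ne_zero hN hN)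
      (show (N.factorial : ℂ) * N.factorial * (m.factorial * fis g h) =
        N.factorial * N.factorial * ((N + m).factorial * fis (sl v g) (sl v h)) by
          linear_combination h1)
    exact this
  rw [div_mul_eq_mul_div, eq_div_iff hm, mul_comm, h3]

end Pool.Agent.K1H69.KR
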